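import Pool.Agent.TH728.PL.Mv

/-!
Lower order perturbations `G + R`, `deg R ≤ e`, of a fixed polynomial `G ∈ ℤ[x, y]` of degree
`d ≥ e + 4` with irreducible leading form: the exact order of the number of those curves which have
an integer point.
-/

set_option autoImplicit false

open Polynomial

namespace Pool.Agent.Results.MP_2d259b_nt.PhaseLaw

/-- Let `G ∈ ℤ[x, y]` have degree `d`, a leading form that is irreducible over `ℚ`, and let the
restriction of `G` to each real line have degree at least `d - 2`. Let `1 ≤ e ≤ d - 4`, and let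
`n = (e + 1) (e + 2) / 2`. Then the number of polynomials `R` of degree at most `e` with all
coefficients in `[-H, H]`, for which the curve `G + R = 0` has an integer point, has the exact order
of magnitude `H ^ (n - 1 + 1 / (d - 1))` if `e = 1`, `H ^ (n - 1) log H` if `e = 2`, and `H ^ (n - 1)`
if `e ≥ 3`. The number of all these `R` is `(2 H + 1) ^ n`. -/
theorem result (d e : ℕ) (he : 1 ≤ e) (hed : e + 4 ≤ d) (G : MvPolynomial (Fin 2) ℤ)
    (hG : G.totalDegree = d)
    (hirr : Irreducible (MvPolynomial.map (Int.castRingHom ℚ)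
      (MvPolynomial.homogeneousComponent d G)))
    (hlines : ∀ p q : Fin 2 → ℝ, q ≠ 0 → d ≤
      (MvPolynomial.aeval (fun i => (C (p i) + C (q i) * X : ℝ[X])) G).natDegree + 2) :
    ∃ c K : ℝ, 0 < c ∧ ∃ H₁ : ℕ, ∀ H : ℕ, H₁ ≤ H →
      c * ((H : ℝ) ^ ((e + 1) * (e + 2) / 2 - 1) *
          (if e = 1 then (H : ℝ) ^ (1 / ((d : ℝ) - 1)) else if e = 2 then Real.log H else 1)) ≤
        (Set.ncard {R : MvPolynomial (Fin 2) ℤ | R.totalDegree ≤ e ∧
          (∀ m, |R.coeff m| ≤ (H : ℤ)) ∧ ∃ x y : ℤ, MvPolynomial.eval ![x, y] (G + R) = 0} : ℝ) ∧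
      (Set.ncard {R : MvPolynomial (Fin 2) ℤ | R.totalDegree ≤ e ∧
          (∀ m, |R.coeff m| ≤ (H : ℤ)) ∧ ∃ x y : ℤ, MvPolynomial.eval ![x, y] (G + R) = 0} : ℝ) ≤
        K * ((H : ℝ) ^ ((e + 1) * (e + 2) / 2 - 1) *
          (if e = 1 then (H : ℝ) ^ (1 / ((d : ℝ) - 1)) else if e = 2 then Real.log H else 1)) := by
  obtain ⟨c, K, hc, H₁, h⟩ := Pool.Agent.TH728.PL.phase d e he hed G hG hirr hlines
  refine ⟨c, K, hc, H₁, ?_⟩
  intro H hH
  obtain ⟨h1, h2⟩ := h H hH
  simp only [Nat.lt_succ_iff] at h1 h2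
  unfold Pool.Agent.TH728.PL.phi at h1 h2
  rw [mul_assoc] at h1 h2
  exact ⟨h1, h2⟩

end Pool.Agent.Results.MP_2d259b_nt.PhaseLaw
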