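import Pool.Agent.TH728.PL.Mv3

/-!
Lower order perturbations `G + R`, `deg R ≤ e`, `e ≥ 3`, of a fixed polynomial `G ∈ ℤ[x, y]` of
degree `d ≥ e + 4` with irreducible leading form: the number of those curves which have an integer
point is asymptotic to a constant, which depends only on `e`, times `(2 H + 1) ^ (n - 1)`.
-/

set_option autoImplicit false

open Polynomial MeasureTheory

namespace Pool.Agent.Results.MP_2d259b_nt.UniversalConstant

/-- The pairs `(i, j) ≠ (0, 0)` of natural numbers with `i + j ≤ e`. -/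
def exps (e : ℕ) : Finset (ℕ × ℕ) :=
  (((Finset.range (e + 1)) ×ˢ (Finset.range (e + 1))).filter fun p => p.1 + p.2 < e + 1).erase (0, 0)

/-- The probability that `|∑ t_ij x ^ i y ^ j| ≤ 1` for independent random variables `t_ij`, uniformly
distributed in `[-1, 1]`, one for each pair `(i, j) ≠ (0, 0)` with `i + j ≤ e`: the volume of the set
of all such `t` in the cube `[-1, 1] ^ n`, divided by `2 ^ n`. -/
noncomputable def prob (e : ℕ) (x y : ℤ) : ℝ :=
  (volume {t : exps e → ℝ | (∀ p, |t p| ≤ 1) ∧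
    |∑ p, t p * (x : ℝ) ^ p.1.1 * (y : ℝ) ^ p.1.2| ≤ 1}).toReal / 2 ^ (exps e).card

/-- Let `e ≥ 3`, and let `c` be the sum over all `(x, y) ∈ ℤ × ℤ` of the probabilities `prob e x y`,
which converges. Let `d ≥ e + 4`, and let `G ∈ ℤ[x, y]` be any polynomial of degree `d` with a leading
form that is irreducible over `ℚ`, such that the restriction of `G` to each real line has degree at
least `d - 2`. Then the number of polynomials `R` of degree at most `e` with all coefficients in
`[-H, H]`, for which the curve `G + R = 0` has an integer point, is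
`(c + O(H ^ (-1 / (d - e + 3)))) (2 H + 1) ^ (n - 1)`, `n = (e + 1) (e + 2) / 2`. The constant `c`
depends only on `e`. -/
theorem result (e : ℕ) (he : 3 ≤ e) :
    Summable (fun P : ℤ × ℤ => prob e P.1 P.2) ∧
    ∀ (d : ℕ) (_ : e + 4 ≤ d) (G : MvPolynomial (Fin 2) ℤ) (_ : G.totalDegree = d)
      (_ : Irreducible (MvPolynomial.map (Int.castRingHom ℚ)
        (MvPolynomial.homogeneousComponent d G)))
      (_ : ∀ p q : Fin 2 → ℝ, q ≠ 0 → d ≤
        (MvPolynomial.aeval (fun i => (C (p i) + C (q i) * X : ℝ[X])) G).natDegree + 2),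
      ∃ K : ℝ, ∀ H : ℕ, 1 ≤ H →
        |(Set.ncard {R : MvPolynomial (Fin 2) ℤ | R.totalDegree ≤ e ∧
            (∀ m, |R.coeff m| ≤ (H : ℤ)) ∧ ∃ x y : ℤ, MvPolynomial.eval ![x, y] (G + R) = 0} : ℝ) /
            (2 * H + 1) ^ ((e + 1) * (e + 2) / 2 - 1) - ∑' P : ℤ × ℤ, prob e P.1 P.2| ≤
          K * (H : ℝ) ^ (-(1 / ((d : ℝ) - e + 3))) := by
  have h2 := Pool.Agent.TH728.FX.rho_summable (d := e + 1) (by omega)
  have h3 : Summable (fun P : ℤ × ℤ => prob e P.1 P.2) := by
    have := (Equiv.prodComm ℤ ℤ).summable_iff.2 h2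
    exact this
  have h4 : ∑' P : ℤ × ℤ, prob e P.1 P.2 = ∑' P : ℤ × ℤ, Pool.Agent.TH728.FX.rho (e + 1) P.1 P.2 := by
    have := (Equiv.prodComm ℤ ℤ).tsum_eq (fun P : ℤ × ℤ => Pool.Agent.TH728.FX.rho (e + 1) P.1 P.2)
    rw [← this]
    rfl
  refine ⟨h3, ?_⟩
  intro d hed G hG hirr hlines
  obtain ⟨K, hK⟩ := Pool.Agent.TH728.PL.phase3 d e he hed G hG hirr hlines
  refine ⟨K, ?_⟩
  intro H hH
  have h5 := hK H hH
  simp only [Nat.lt_succ_iff] at h5
  rw [h4, Real.rpow_neg (Nat.cast_nonneg _), ← one_div]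
  exact h5

end Pool.Agent.Results.MP_2d259b_nt.UniversalConstant
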